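import Pool.Agent.Lib.MP_679ac2_an.H6Red
import Pool.Agent.Lib.MP_679ac2_an.H6Weak

set_option autoImplicit false

open MeasureTheory Set Filter Topology ContDiff AddCircle

noncomputable section

namespace Pool.Agent.Results.MP_679ac2_an.UncondUniqT

local instance instTwoPi : Fact (0 < 2 * Real.pi) := ⟨Real.two_pi_pos⟩

/-- The space `L²(𝕋)` on the circle `𝕋 = ℝ/2πℤ`, with the normalised Haar measure. -/
abbrev L2T : Type := Lp ℂ 2 (haarAddCircle : Measure (AddCircle (2 * Real.pi)))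

/-- The Hardy space `L²_+(𝕋)`: the negative Fourier coefficients vanish. -/
def Hardy : Set L2T := {f | ∀ n : ℤ, n < 0 → fourierCoeff f n = 0}

/-- `Σ_n (1+|n|)^{2s} |f̂(n)|² ≤ C`: the square of the `H^s(𝕋)` norm of `f` is at most `C`. -/
def HsBound (s C : ℝ) (f : L2T) : Prop :=
  ∀ F : Finset ℤ, ∑ n ∈ F, (1 + |(n : ℝ)|) ^ (2 * s) * ‖fourierCoeff f n‖ ^ 2 ≤ C

/-- For `f` in the Hardy space, the `k`-th Fourier coefficient of `f P_+ ∂ₓ(|f|²)`:
the sum of `i m (|f|²)^(m) f̂(k-m)` over `1 ≤ m ≤ k`. -/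
def nlCoeff (f : L2T) (k : ℕ) : ℂ :=
  ∑ m ∈ Finset.Icc 1 k, Complex.I * (m : ℂ) *
    fourierCoeff (fun x : AddCircle (2 * Real.pi) => ((‖f x‖ ^ 2 : ℝ) : ℂ)) (m : ℤ) *
      fourierCoeff f ((k : ℤ) - (m : ℤ))

/-- `u` is a distributional solution on `(-T,T)` of
`∂ₜ u = -i ∂ₓ² u + 2 β u P_+ ∂ₓ(|u|²)` in `L^∞((-T,T); L²_+(𝕋))` with data `u₀`. The equation
is tested against the functions `φ(t) e^{-ikx}`, `φ` smooth with compact support in `(-T,T)`, and
the value at `t = 0` is the one of the continuous representatives of the Fourier coefficients. -/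
structure IsDistSol (β T : ℝ) (u₀ : L2T) (u : ℝ → L2T) : Prop where
  meas : AEStronglyMeasurable u (volume.restrict (Ioo (-T) T))
  bounded : ∃ C : ℝ, ∀ᵐ t ∂(volume.restrict (Ioo (-T) T)), ‖u t‖ ≤ C
  hardy : ∀ᵐ t ∂(volume.restrict (Ioo (-T) T)), u t ∈ Hardy
  eqn : ∀ (k : ℕ) (φ : ℝ → ℝ), ContDiff ℝ ∞ φ → HasCompactSupport φ → tsupport φ ⊆ Ioo (-T) T →
    ∫ t in Ioo (-T) T, (((deriv φ t : ℝ) : ℂ) * fourierCoeff (u t) (k : ℤ) +
      ((φ t : ℝ) : ℂ) * (Complex.I * (k : ℂ) ^ 2 * fourierCoeff (u t) (k : ℤ) +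
        2 * (β : ℂ) * nlCoeff (u t) k)) = 0
  initial : ∀ k : ℕ, ∃ c : ℝ → ℂ, ContinuousOn c (Ioo (-T) T) ∧
    (∀ᵐ t ∂(volume.restrict (Ioo (-T) T)), fourierCoeff (u t) (k : ℤ) = c t) ∧
      c 0 = fourierCoeff u₀ (k : ℤ)

open H6CCM

/-- Fourier coefficients of an element of the Hardy space. -/
def coef (f : L2T) (k : ℕ) : ℂ := fourierCoeff f (k : ℤ)

lemma coe_fourierCoeff_ext {f g : L2T} (h : ∀ n : ℤ, fourierCoeff f n = fourierCoeff g n) :
    f = g := by
  apply fourierBasis.repr.injective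
  ext n
  rw [fourierBasis_repr, fourierBasis_repr]
  exact h n

/-- Parseval for `|f|²`. -/
lemma coeff_sq (f : L2T) (m : ℤ) :
    HasSum (fun n : ℤ => star (fourierCoeff f n) * fourierCoeff f (n + m))
      (fourierCoeff (fun x : AddCircle (2 * Real.pi) => ((‖f x‖ ^ 2 : ℝ) : ℂ)) m) := by
  -- the function `e_{-m} f`
  have hmem : MemLp (fun x : AddCircle (2 * Real.pi) => fourier (-m) x * f x) 2 haarAddCircle := by
    apply MemLp.of_le (Lp.memLp f)
    · exact (fourier (-m)).continuous.aestronglyMeasurable.mul (Lp.aestronglyMeasurable f)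
    · apply Eventually.of_forall
      intro x
      rw [norm_mul, fourier_apply, Circle.norm_coe, one_mul]
  set g : L2T := hmem.toLp _ with hg
  have hgc : g =ᵐ[haarAddCircle] fun x => fourier (-m) x * f x := hmem.coeFn_toLp
  have hcoef : ∀ n : ℤ, fourierCoeff g n = fourierCoeff f (n + m) := by
    intro n
    unfold fourierCoeff
    apply integral_congr_ae
    filter_upwards [hgc] with x hx
    rw [hx, smul_eq_mul, smul_eq_mul, ← mul_assoc, ← fourier_add]
    congr 3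
    ring
  have h1 := fourierBasis.hasSum_inner_mul_inner f g
  have h2 : ∀ n : ℤ, inner ℂ f ((fourierBasis (T := 2 * Real.pi)) n) *
      inner ℂ ((fourierBasis (T := 2 * Real.pi)) n) g =
      star (fourierCoeff f n) * fourierCoeff f (n + m) := by
    intro n
    rw [← hcoef, ← fourierBasis_repr g, ← fourierBasis_repr f, HilbertBasis.repr_apply_apply,
      HilbertBasis.repr_apply_apply]
    congr 1
    rw [Complex.star_def, inner_conj_symm]
  simp only [h2] at h1
  have h3 : inner ℂ f g =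
      fourierCoeff (fun x : AddCircle (2 * Real.pi) => ((‖f x‖ ^ 2 : ℝ) : ℂ)) m := by
    rw [MeasureTheory.L2.inner_def]
    unfold fourierCoeff
    apply integral_congr_ae
    filter_upwards [hgc] with x hx
    rw [hx, RCLike.inner_apply', smul_eq_mul]
    have : (starRingEnd ℂ) (f x) * f x = ((‖f x‖ ^ 2 : ℝ) : ℂ) := by
      have := Complex.conj_mul' (f x)
      simpa using this
    rw [← this]
    ring
  rw [h3] at h1
  exact h1

lemma coeff_sq_corr {f : L2T} (hf : f ∈ Hardy) (m : ℕ) :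
    fourierCoeff (fun x : AddCircle (2 * Real.pi) => ((‖f x‖ ^ 2 : ℝ) : ℂ)) (m : ℤ) =
      corr (coef f) m := by
  have h1 := (coeff_sq f (m : ℤ)).tsum_eq
  rw [← h1]
  unfold corr coef
  have hinj : Function.Injective (fun b : ℕ => (b : ℤ)) := Nat.cast_injective
  have hsupp : Function.support (fun n : ℤ => star (fourierCoeff f n) *
      fourierCoeff f (n + (m : ℤ))) ⊆ Set.range (fun b : ℕ => (b : ℤ)) := by
    intro n hn
    by_contra h
    apply hn
    have hneg : n < 0 := by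
      by_contra h2
      apply h
      exact ⟨n.toNat, by simp; omega⟩
    simp only
    rw [hf n hneg]
    simp
  rw [← hinj.tsum_eq hsupp]
  apply tsum_congr
  intro b
  push_cast
  rfl

lemma nlCoeff_eq {f : L2T} (hf : f ∈ Hardy) (k : ℕ) :
    nlCoeff f k = ∑ m ∈ Finset.range (k + 1),
      Complex.I * (m : ℂ) * corr (coef f) m * coef f (k - m) := by
  unfold nlCoeff
  rw [Finset.range_eq_Ico, Finset.sum_eq_sum_Ico_succ_bot (Nat.succ_pos k)]
  simp only [Nat.cast_zero, mul_zero, zero_mul, zero_add]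
  apply Finset.sum_congr
  · ext m
    simp only [Finset.mem_Icc, Finset.mem_Ico]
    omega
  · intro m hm
    have hmk : m ≤ k := by
      have := Finset.mem_Ico.mp hm
      omega
    rw [coeff_sq_corr hf]
    unfold coef
    rw [Nat.cast_sub hmk]

lemma rhs_eq {β : ℝ} {f : L2T} (hf : f ∈ Hardy) (k : ℕ) :
    Complex.I * (k : ℂ) ^ 2 * fourierCoeff f (k : ℤ) + 2 * (β : ℂ) * nlCoeff f k =
      rhs β (coef f) k := by
  rw [nlCoeff_eq hf]
  rfl

lemma bdd_of_HsBound {s C : ℝ} {f : L2T} (h : HsBound s C f) : Bdd s C (coef f) := by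
  intro n
  have h1 := h ((Finset.range n).map ⟨fun b : ℕ => (b : ℤ), Nat.cast_injective⟩)
  rw [Finset.sum_map] at h1
  refine le_trans (le_of_eq ?_) h1
  apply Finset.sum_congr rfl
  intro k _
  unfold wt coef
  simp

/-- A continuous function bounded almost everywhere on an open interval is bounded. -/
lemma le_of_ae_le {a b C : ℝ} {g : ℝ → ℝ} (hg : ContinuousOn g (Ioo a b))
    (h : ∀ᵐ t ∂(volume.restrict (Ioo a b)), g t ≤ C) : ∀ t ∈ Ioo a b, g t ≤ C := by
  have h1 : (fun t => max (g t) C) =ᵐ[volume.restrict (Ioo a b)] fun _ => C := by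
    filter_upwards [h] with t ht
    exact max_eq_right ht
  have h2 := Measure.eqOn_open_of_ae_eq h1 isOpen_Ioo
    (continuous_max.comp_continuousOn (hg.prodMk continuousOn_const)) continuousOn_const
  intro t ht
  have h3 := h2 ht
  simp only at h3
  exact max_eq_right_iff.mp h3

lemma bdd_mono_s {s s' M : ℝ} (h : s' ≤ s) {u : ℕ → ℂ} (hb : Bdd s M u) : Bdd s' M u := by
  intro n
  refine le_trans ?_ (hb n)
  apply Finset.sum_le_sum
  intro k _
  exact mul_le_mul_of_nonneg_right (wt_le_wt_left (by linarith) _) (sq_nonneg _)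

lemma bdd_mono_M {s M M' : ℝ} (h : M ≤ M') {u : ℕ → ℂ} (hb : Bdd s M u) : Bdd s M' u :=
  fun n => (hb n).trans h

/-- The continuous representatives form a classical solution of the coefficient system. -/
lemma exists_sol {β s T C : ℝ} (hs : 0 < s) (hT : 0 < T) {u₀ : L2T} {u : ℝ → L2T}
    (hu : IsDistSol β T u₀ u)
    (hC : ∀ᵐ t ∂(volume.restrict (Ioo (-T) T)), HsBound s C (u t)) :
    ∃ U : ℝ → ℕ → ℂ, Sol β s C T U ∧
      (∀ᵐ t ∂(volume.restrict (Ioo (-T) T)), ∀ k : ℕ, fourierCoeff (u t) (k : ℤ) = U t k) ∧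
        ∀ k : ℕ, U 0 k = fourierCoeff u₀ (k : ℤ) := by
  choose c hc1 hc2 hc3 using hu.initial
  set U : ℝ → ℕ → ℂ := fun t k => c k t with hU
  have hae : ∀ᵐ t ∂(volume.restrict (Ioo (-T) T)), ∀ k : ℕ, fourierCoeff (u t) (k : ℤ) = U t k :=
    ae_all_iff.mpr fun k => hc2 k
  have hcoef : ∀ᵐ t ∂(volume.restrict (Ioo (-T) T)), coef (u t) = U t := by
    filter_upwards [hae] with t ht
    funext k
    exact ht k
  have hcont : ∀ k, ContinuousOn (fun t => U t k) (Ioo (-T) T) := fun k => hc1 k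
  have hbdd : ∀ t ∈ Ioo (-T) T, Bdd s C (U t) := by
    intro t ht n
    have h1 : ContinuousOn (fun t => ∑ k ∈ Finset.range n, wt (2 * s) k * ‖U t k‖ ^ 2)
        (Ioo (-T) T) := by
      apply continuousOn_finsetSum
      intro k _
      exact continuousOn_const.mul ((hcont k).norm.pow 2)
    apply le_of_ae_le h1 _ t ht
    filter_upwards [hC, hcoef] with x hx1 hx2
    have := bdd_of_HsBound hx1
    rw [hx2] at this
    exact this n
  refine ⟨U, ⟨?_, hbdd⟩, hae, fun k => hc3 k⟩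
  intro t ht k
  apply classical_of_weak hT (hcont k) (rhs_cont hs hcont hbdd k) _ t ht
  intro φ h1 h2 h3
  rw [← hu.eqn k φ h1 h2 h3]
  apply integral_congr_ae
  filter_upwards [hcoef, hu.hardy] with x hx1 hx2
  rw [rhs_eq hx2, hx1, ← hx1]
  rfl

/-- **Unconditional uniqueness for the defocusing continuum Calogero–Moser equation on the circle
in `L^∞((-T,T); H^s_+(𝕋))` for every `s > 1/4`.** -/
theorem result (β : ℝ) (hβ : 0 < β) (s : ℝ) (hs : 1 / 4 < s) (T : ℝ) (hT : 0 < T)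
    (u₀ : L2T) (u v : ℝ → L2T) (hu : IsDistSol β T u₀ u) (hv : IsDistSol β T u₀ v)
    (hus : ∃ C : ℝ, ∀ᵐ t ∂(volume.restrict (Ioo (-T) T)), HsBound s C (u t))
    (hvs : ∃ C : ℝ, ∀ᵐ t ∂(volume.restrict (Ioo (-T) T)), HsBound s C (v t)) :
    ∀ᵐ t ∂(volume.restrict (Ioo (-T) T)), u t = v t := by
  obtain ⟨C₁, hC₁⟩ := hus
  obtain ⟨C₂, hC₂⟩ := hvs
  obtain ⟨U, hU1, hU2, hU3⟩ := exists_sol (by linarith) hT hu hC₁
  obtain ⟨V, hV1, hV2, hV3⟩ := exists_sol (by linarith) hT hv hC₂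
  set s' := min s (3 / 8) with hs'
  have h1 : 1 / 4 < s' := lt_min hs (by norm_num)
  have h2 : s' < 1 / 2 := lt_of_le_of_lt (min_le_right _ _) (by norm_num)
  have h3 : s' ≤ s := min_le_left _ _
  have hU4 : Sol β s' (max C₁ C₂) T U :=
    ⟨hU1.der, fun t ht => bdd_mono_M (le_max_left _ _) (bdd_mono_s h3 (hU1.bdd t ht))⟩
  have hV4 : Sol β s' (max C₁ C₂) T V :=
    ⟨hV1.der, fun t ht => bdd_mono_M (le_max_right _ _) (bdd_mono_s h3 (hV1.bdd t ht))⟩
  have h0 : U 0 = V 0 := by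
    funext k
    rw [hU3, hV3]
  have hmem : ∀ᵐ t ∂(volume.restrict (Ioo (-T) T)), t ∈ Ioo (-T) T :=
    ae_restrict_mem measurableSet_Ioo
  filter_upwards [hU2, hV2, hu.hardy, hv.hardy, hmem] with t a1 a2 a3 a4 a5
  have h4 := unique_classical hβ h1 h2 hU4 hV4 h0 a5
  apply coe_fourierCoeff_ext
  intro n
  rcases lt_or_ge n 0 with hn | hn
  · rw [a3 n hn, a4 n hn]
  · obtain ⟨k, rfl⟩ := Int.eq_ofNat_of_zero_le hn
    rw [a1 k, a2 k, h4]

end Pool.Agent.Results.MP_679ac2_an.UncondUniqT
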